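import Pool.Agent.X268.AL.Main

set_option linter.unusedSectionVars false

open Finset

namespace Pool.Agent.X268.AL

open Pool.Agent.W539.DI Pool.Agent.X268.VL

variable {X Y : Irr}

theorem base {n : ℕ} {K : KRing n} (hK : CoverOf X 0 K) (i : ℕ) : K.h n i = X.h i 0 := by
  rw [hK i, addOrderOf_zero, sum_range_one, zero_smul]

/-- The numbers which are known to agree. -/
theorem base_edge {ρ : Rouquier X Y} {n : ℕ} (hn : 2 ≤ n) (hc : CoversFM ρ n) (i : ℕ)
    (hi : i ≤ 2 ∨ n ≤ i + 1) : X.h i 0 = Y.h i 0 := by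
  obtain ⟨K, L, hK, hL, ⟨Φ⟩, h10⟩ := hc 0 (isOfFinAddOrder_iff_nsmul_eq_zero.mpr
    ⟨1, one_pos, by simp⟩)
  rw [map_zero] at hL
  have hK' : CoverOf X 0 K := hK
  have hL' : CoverOf Y 0 L := hL
  rw [← base hK', ← base hL']
  exact edge_eq hn Φ h10 i hi

theorem sum_cover {n : ℕ} (hX : ChiConst X n) {α : X.G} {K : KRing n} (hK : CoverOf X α K) :
    ∑ i ∈ range (n + 1), (-1) ^ i * (K.h n i : ℤ) = addOrderOf α * chi X n 0 := by
  have h1 : ∀ i : ℕ, (K.h n i : ℤ) = ∑ k ∈ range (addOrderOf α), (X.h i (k • α) : ℤ) := fun i => by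
    rw [hK i]
    push_cast
    rfl
  simp only [h1, mul_sum]
  rw [sum_comm]
  have h2 : ∀ k ∈ range (addOrderOf α), ∑ i ∈ range (n + 1), (-1) ^ i * (X.h i (k • α) : ℤ) =
      chi X n 0 := fun k _ => hX (k • α)
  rw [sum_congr rfl h2, sum_const, card_range, nsmul_eq_mul]

theorem cover_generic {n p : ℕ} (hp : p.Prime) {α : X.G} (hα : addOrderOf α = p) {K : KRing n}
    (hK : CoverOf X α K) {i : ℕ} (h : ∀ k : ℕ, 0 < k → k < p → X.h i (k • α) = 0) :
    K.h n i = X.h i 0 := by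
  rw [hK i, hα]
  obtain ⟨q, rfl⟩ : ∃ q, p = q + 1 := ⟨p - 1, by have := hp.pos; omega⟩
  rw [sum_range_succ', zero_smul, Finset.sum_eq_zero, zero_add]
  intro k hk
  rw [mem_range] at hk
  exact h (k + 1) (by omega) (by omega)

/-- **The Euler characteristics agree.** -/
theorem chi_eq {ρ : Rouquier X Y} {n : ℕ} (hn : 2 ≤ n) (hX : ChiConst X n) (hY : ChiConst Y n)
    (hc : CoversFM ρ n) {B : AddSubgroup X.G} (hB : Generic ρ n B) : chi X n 0 = chi Y n 0 := by
  obtain ⟨p, α, hp, hpα, hα0, hgen⟩ := generic_point hB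
  have := Fact.mk hp
  have hoα : addOrderOf α.1 = p := addOrderOf_eq_prime hpα hα0
  have hoβ : addOrderOf (ρ.F α).1 = p := by
    refine addOrderOf_eq_prime ?_ ?_
    · have h1 : p • α = 0 := Subtype.ext hpα
      have h2 : p • ρ.F α = 0 := by rw [← map_nsmul, h1, map_zero]
      exact congrArg Subtype.val h2
    · intro h
      have h1 : ρ.F α = 0 := Subtype.ext h
      have h2 : α = 0 := by
        apply ρ.F.injective
        rw [h1, map_zero]
      exact hα0 (congrArg Subtype.val h2)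
  obtain ⟨K, L, hK, hL, ⟨Φ⟩, h10⟩ := hc α (isOfFinAddOrder_iff_nsmul_eq_zero.mpr
    ⟨p, hp.pos, hpα⟩)
  have h1 := sum_cover hX hK
  have h2 := sum_cover hY hL
  rw [hoα] at h1
  rw [hoβ] at h2
  have h3 : ∑ i ∈ range (n + 1), (-1) ^ i * (K.h n i : ℤ) -
      ∑ i ∈ range (n + 1), (-1) ^ i * (L.h n i : ℤ) = chi X n 0 - chi Y n 0 := by
    unfold chi
    rw [← sum_sub_distrib, ← sum_sub_distrib]
    refine sum_congr rfl fun i _ => ?_
    by_cases hi : i ≤ 2 ∨ n ≤ i + 1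
    · rw [edge_eq hn Φ h10 i hi, base_edge hn hc i hi, sub_self, sub_self]
    · push Not at hi
      rw [cover_generic hp hoα hK fun k h1 h2 => (hgen i (by omega) (by omega) k h1 h2).1,
        cover_generic hp hoβ hL fun k h1 h2 => (hgen i (by omega) (by omega) k h1 h2).2]
  rw [h1, h2, ← mul_sub] at h3
  have h4 : ((p : ℤ) - 1) * (chi X n 0 - chi Y n 0) = 0 := by linarith
  rcases mul_eq_zero.mp h4 with h5 | h5
  · have := hp.two_le
    omega
  · linarith

theorem five_h {ρ : Rouquier X Y} (hc : CoversFM ρ 5) (h : chi X 5 0 = chi Y 5 0) (i : ℕ) :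
    X.h i 0 = Y.h i 0 := by
  by_cases hi : i ≤ 2 ∨ 5 ≤ i + 1
  · exact base_edge (by norm_num) hc i hi
  · have hi3 : i = 3 := by omega
    subst hi3
    have e : ∀ i : ℕ, i ≤ 2 ∨ 5 ≤ i + 1 → X.h i 0 = Y.h i 0 := base_edge (by norm_num) hc
    unfold chi at h
    simp only [sum_range_succ, sum_range_zero] at h
    rw [e 0 (by norm_num), e 1 (by norm_num), e 2 (by norm_num), e 4 (by norm_num),
      e 5 (by norm_num)] at h
    norm_num at h
    omega

/-- From `h^{n,q}` to `h^{0,q}`. -/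
theorem zero_of_top {n : ℕ} {K L : KRing n} (key : ∀ q : ℕ, K.h n q = L.h n q) (q : ℤ) :
    K.h 0 q = L.h 0 q := by
  by_cases hq : 0 ≤ q ∧ q ≤ n
  · obtain ⟨hq0, hqn⟩ := hq
    obtain ⟨a, rfl⟩ := Int.eq_ofNat_of_zero_le hq0
    obtain ⟨k, hk⟩ := Nat.exists_eq_add_of_le (show a ≤ n by exact_mod_cast hqn)
    have e : ∀ Z : KRing n, Z.h 0 (a : ℤ) = Z.h n k := fun Z => by
      rw [Z.h_symm (p := 0) (q := (a : ℤ)) k (by rw [hk]; push_cast; ring), Z.h_swap]
      congr 1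
      · rw [hk]; push_cast; ring
      · ring
    rw [e K, e L]
    exact key k
  · rw [K.h_zero (by omega), L.h_zero (by omega)]

end Pool.Agent.X268.AL
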