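import Pool.Agent.X268.AL.Fin

set_option linter.unusedSectionVars false

open Finset

namespace Pool.Agent.X268.AL

open Pool.Agent.W539.DI Pool.Agent.X268.VL

variable {X Y : Irr}

/-- The sums for `i = 3`, from the Euler characteristic. -/
theorem sums_five {ρ : Rouquier X Y} (hX : ChiConst X 5) (hY : ChiConst Y 5)
    (hc : CoversFM ρ 5) (h : chi X 5 0 = chi Y 5 0) (i : ℕ) : SumsEq ρ i := by
  by_cases hi : i ≤ 2 ∨ 5 ≤ i + 1
  · exact sums_edge (by norm_num) hc i hi
  have hi3 : i = 3 := by omega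
  subst hi3
  intro α hα
  obtain ⟨K, L, hK, hL, ⟨Φ⟩, h10⟩ := hc α hα
  rw [← hK 3, ← hL 3]
  have h1 := sum_cover hX hK
  have h2 := sum_cover hY hL
  have ho : addOrderOf (ρ.F α).1 = addOrderOf α.1 := by
    rw [AddSubgroup.addOrderOf_coe, AddSubgroup.addOrderOf_coe]
    exact addOrderOf_injective ρ.F.toAddMonoidHom ρ.F.injective α
  rw [ho, ← h, ← h1] at h2
  have e : ∀ i : ℕ, i ≤ 2 ∨ 5 ≤ i + 1 → K.h 5 i = L.h 5 i := fun i hi =>
    edge_eq (by norm_num) Φ h10 i hi
  simp only [sum_range_succ, sum_range_zero] at h2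
  have e0 := e 0 (by norm_num)
  have e1 := e 1 (by norm_num)
  have e2 := e 2 (by norm_num)
  have e4 := e 4 (by norm_num)
  have e5 := e 5 (by norm_num)
  push_cast at h2 e0 e1 e2 e4 e5 ⊢
  rw [e0, e1, e2, e4, e5] at h2
  norm_num at h2
  exact h2.symm

end Pool.Agent.X268.AL
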