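import Pool.Agent.X268.AL.Stm
import Pool.Agent.X268.VL.Main
import Pool.Agent.X268.SC.Tower

set_option linter.unusedSectionVars false

open Finset

namespace Pool.Agent.X268.AL

open Pool.Agent.W539.DI Pool.Agent.X268.VL

/-- Elements of prime order outside finitely many subgroups. -/
theorem exists_tors' {G : Type} [AddCommGroup G] (B : AddSubgroup G)
    (hfin : ∀ p : ℕ, p.Prime → (tors B p).Finite) (s : Finset (AddSubgroup G))
    (hs : ∀ D ∈ s, ∃ N : ℕ, ∀ p : ℕ, p.Prime → N < p →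
      p * (tors (B ⊓ D) p).ncard ≤ (tors B p).ncard) (M : ℕ) :
    ∃ p : ℕ, p.Prime ∧ M < p ∧ ∃ β ∈ B, p • β = 0 ∧ ∀ D ∈ s, β ∉ D := by
  classical
  choose! N hN using hs
  obtain ⟨p, hp1, hp⟩ := Nat.exists_infinite_primes (M + s.card + 1 + ∑ D ∈ s, N D)
  have hNp : ∀ D ∈ s, N D < p := by
    intro D hD
    have : N D ≤ ∑ D ∈ s, N D := Finset.single_le_sum (f := N) (fun _ _ => Nat.zero_le _) hD
    omega
  refine ⟨p, hp, by omega, ?_⟩
  by_contra hcon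
  push Not at hcon
  have hf := hfin p hp
  have hsub : tors B p ⊆ ⋃ D ∈ s, tors (B ⊓ D) p := by
    intro β hβ
    obtain ⟨D, hD, hj⟩ := hcon β hβ.1 hβ.2
    simp only [Set.mem_iUnion]
    exact ⟨D, hD, ⟨hβ.1, hj⟩, hβ.2⟩
  have hfinU : (⋃ D ∈ s, tors (B ⊓ D) p).Finite := by
    refine hf.subset ?_
    intro x hx
    simp only [Set.mem_iUnion] at hx
    obtain ⟨D, -, hx⟩ := hx
    exact ⟨hx.1.1, hx.2⟩
  have h1 := Set.ncard_le_ncard hsub hfinU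
  have h2 : ∀ t : Finset (AddSubgroup G), (⋃ D ∈ t, tors (B ⊓ D) p).ncard ≤
      ∑ D ∈ t, (tors (B ⊓ D) p).ncard := by
    intro t
    induction t using Finset.induction_on with
    | empty => simp
    | insert a t ha ih =>
      rw [Finset.set_biUnion_insert, Finset.sum_insert ha]
      exact (Set.ncard_union_le _ _).trans (Nat.add_le_add_left ih _)
  have hpos : 0 < (tors B p).ncard := by
    rw [Set.ncard_pos hf]
    exact ⟨0, B.zero_mem, smul_zero p⟩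
  have h3 : p * ∑ D ∈ s, (tors (B ⊓ D) p).ncard ≤ s.card * (tors B p).ncard := by
    rw [Finset.mul_sum]
    have : ∑ D ∈ s, p * (tors (B ⊓ D) p).ncard ≤ ∑ _D ∈ s, (tors B p).ncard :=
      Finset.sum_le_sum fun D hD => hN D hD p hp (hNp D hD)
    rw [Finset.sum_const, smul_eq_mul] at this
    exact this
  have h4 : p * (tors B p).ncard ≤ s.card * (tors B p).ncard :=
    (Nat.mul_le_mul_left p (h1.trans (h2 s))).trans h3
  have h5 := Nat.le_of_mul_le_mul_right h4 hpos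
  omega

/-- The multiples of a point of large prime order outside finitely many subgroups are not in the
locus. -/
theorem avoid (X : Irr) (i : ℕ) (B : AddSubgroup X.G) (b : X.G) (hb : b ∈ B)
    (hb0 : X.h i b = 0) : ∃ (s : Finset (AddSubgroup X.G)) (M : ℕ), (∀ D ∈ s, D ∈ X.ab) ∧
      (∀ D ∈ s, ¬ B ≤ D) ∧ ∀ p : ℕ, p.Prime → M < p → ∀ β ∈ B, p • β = 0 → (∀ D ∈ s, β ∉ D) →
        ∀ k : ℕ, 0 < k → k < p → X.h i (k • β) = 0 := by
  classical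
  obtain ⟨r, τ, C, hτ, hC, hV⟩ := X.locus i
  have hV' : ∀ x, X.h i x ≠ 0 ↔ ∃ j, x - τ j ∈ C j := hV
  have hτC : ∀ j, B ≤ C j → τ j ∉ C j := by
    intro j hj hτj
    exact (hV' b).mpr ⟨j, (C j).sub_mem (hj hb) hτj⟩ hb0
  refine ⟨(univ.filter fun j => ¬ B ≤ C j).image C, ∑ j, addOrderOf (τ j), ?_, ?_, ?_⟩
  · intro D hD
    obtain ⟨j, -, rfl⟩ := Finset.mem_image.mp hD
    exact hC j
  · intro D hD
    obtain ⟨j, hj, rfl⟩ := Finset.mem_image.mp hD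
    exact (Finset.mem_filter.mp hj).2
  intro p hp hMp β hβ hpβ hβD k hk hkp
  by_contra hne
  obtain ⟨j, hj⟩ := (hV' _).mp hne
  by_cases hjB : B ≤ C j
  · apply hτC j hjB
    have h1 : k • β ∈ C j := hjB (B.nsmul_mem hβ _)
    have h2 := (C j).sub_mem h1 hj
    rwa [sub_sub_cancel] at h2
  · apply hβD (C j) (Finset.mem_image.mpr ⟨j, Finset.mem_filter.mpr ⟨mem_univ j, hjB⟩, rfl⟩)
    set N := addOrderOf (τ j) with hN
    have hN1 : 0 < N := (hτ j).addOrderOf_pos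
    have hN2 : N < p := by
      have : N ≤ ∑ j, addOrderOf (τ j) :=
        Finset.single_le_sum (f := fun j => addOrderOf (τ j)) (fun _ _ => Nat.zero_le _)
          (mem_univ j)
      omega
    have h1 : (N * k) • β ∈ C j := by
      have h2 := (C j).nsmul_mem hj N
      rw [smul_sub, hN, addOrderOf_nsmul_eq_zero, sub_zero, ← mul_smul] at h2
      exact h2
    have hcop : Nat.Coprime (N * k) p := by
      refine Nat.Coprime.mul_left ?_ ?_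
      · exact (Nat.coprime_of_lt_prime hN1.ne' hN2 hp).symm
      · exact (Nat.coprime_of_lt_prime hk.ne' hkp hp).symm
    have hbez := Int.gcd_eq_gcd_ab ((N * k : ℕ) : ℤ) (p : ℤ)
    have hg : (Int.gcd ((N * k : ℕ) : ℤ) (p : ℤ) : ℤ) = 1 := by
      rw [Int.gcd_natCast_natCast]
      exact_mod_cast hcop
    rw [hg] at hbez
    have h3 : β = (Int.gcdA ((N * k : ℕ) : ℤ) (p : ℤ)) • ((N * k) • β) +
        (Int.gcdB ((N * k : ℕ) : ℤ) (p : ℤ)) • (p • β) := by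
      conv_lhs => rw [← one_zsmul β, hbez]
      rw [add_zsmul, mul_comm, mul_zsmul, natCast_zsmul, mul_comm (p : ℤ), mul_zsmul,
        natCast_zsmul]
    rw [h3, hpβ, smul_zero, add_zero]
    exact (C j).zsmul_mem h1 _

variable {X Y : Irr}

/-- The inverse image of a subgroup. -/
def pull (ρ : Rouquier X Y) (D : AddSubgroup Y.G) : AddSubgroup X.G :=
  (D.comap (ρ.H₀.subtype.comp ρ.F.toAddMonoidHom)).map ρ.G₀.subtype

theorem mem_pull (ρ : Rouquier X Y) (D : AddSubgroup Y.G) (x : ρ.G₀) :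
    x.1 ∈ pull ρ D ↔ (ρ.F x).1 ∈ D := by
  constructor
  · rintro ⟨y, hy, hyx⟩
    have h1 : y = x := Subtype.ext hyx
    rw [← h1]
    exact hy
  · intro h
    exact ⟨x, h, rfl⟩

theorem ncard_tors (ρ : Rouquier X Y) (B : AddSubgroup X.G) (hB : B ≤ ρ.G₀)
    (D : AddSubgroup Y.G) (p : ℕ) :
    (tors (B ⊓ pull ρ D) p).ncard = (tors (img ρ B ⊓ D) p).ncard := by
  refine Set.ncard_congr (fun a ha => (ρ.F ⟨a, hB ha.1.1⟩).1) ?_ ?_ ?_
  · intro a ha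
    refine ⟨⟨(mem_img ρ B ⟨a, hB ha.1.1⟩).mp ha.1.1, (mem_pull ρ D ⟨a, hB ha.1.1⟩).mp ha.1.2⟩, ?_⟩
    have h1 : p • (⟨a, hB ha.1.1⟩ : ρ.G₀) = 0 := Subtype.ext ha.2
    have h2 : p • ρ.F ⟨a, hB ha.1.1⟩ = 0 := by rw [← map_nsmul, h1, map_zero]
    exact congrArg Subtype.val h2
  · intro a b ha hb h
    have h1 : ρ.F ⟨a, hB ha.1.1⟩ = ρ.F ⟨b, hB hb.1.1⟩ := Subtype.ext h
    exact congrArg Subtype.val (ρ.F.injective h1)
  · rintro y ⟨⟨hy1, hy2⟩, hy3⟩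
    obtain ⟨x, hx, rfl⟩ := hy1
    have hxB : x.1 ∈ B := hx
    refine ⟨x.1, ⟨⟨hxB, (mem_pull ρ D x).mpr hy2⟩, ?_⟩, rfl⟩
    have h1 : p • ρ.F x = 0 := Subtype.ext hy3
    have h2 : p • x = 0 := by
      apply ρ.F.injective
      rw [map_nsmul, h1, map_zero]
    exact congrArg Subtype.val h2

theorem ncard_tors' (ρ : Rouquier X Y) (B : AddSubgroup X.G) (hB : B ≤ ρ.G₀) (p : ℕ) :
    (tors B p).ncard = (tors (img ρ B) p).ncard := by
  have h := ncard_tors ρ B hB ⊤ p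
  have e1 : B ⊓ pull ρ ⊤ = B := by
    refine le_antisymm inf_le_left fun x hx => ⟨hx, ?_⟩
    exact (mem_pull ρ ⊤ ⟨x, hB hx⟩).mpr trivial
  rw [e1, inf_top_eq] at h
  exact h

/-- A generic point of prime order. -/
theorem generic_point {ρ : Rouquier X Y} {n : ℕ} {B : AddSubgroup X.G} (hG : Generic ρ n B) :
    ∃ (p : ℕ) (α : ρ.G₀), p.Prime ∧ p • α.1 = 0 ∧ α.1 ≠ 0 ∧ ∀ i : ℕ, 3 ≤ i → i + 2 ≤ n →
      ∀ k : ℕ, 0 < k → k < p → X.h i (k • α.1) = 0 ∧ Y.h i (k • (ρ.F α).1) = 0 := by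
  classical
  obtain ⟨hB, hle, hne, hgen⟩ := hG
  have hB' : img ρ B ∈ Y.ab := (ρ.ab B hle _ (img_le ρ B) (mem_img ρ B)).mp hB
  have hX : ∀ i : ℕ, ∃ (s : Finset (AddSubgroup X.G)) (M : ℕ), (∀ D ∈ s, D ∈ X.ab) ∧
      (∀ D ∈ s, ¬ B ≤ D) ∧ (3 ≤ i → i + 2 ≤ n → ∀ p : ℕ, p.Prime → M < p → ∀ β ∈ B, p • β = 0 →
        (∀ D ∈ s, β ∉ D) → ∀ k : ℕ, 0 < k → k < p → X.h i (k • β) = 0) := by
    intro i
    by_cases hi : 3 ≤ i ∧ i + 2 ≤ n
    · obtain ⟨⟨α, hα, hα0⟩, -⟩ := hgen i hi.1 hi.2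
      obtain ⟨s, M, h1, h2, h3⟩ := avoid X i B α hα hα0
      exact ⟨s, M, h1, h2, fun _ _ => h3⟩
    · exact ⟨∅, 0, by simp, by simp, fun h1 h2 => absurd ⟨h1, h2⟩ hi⟩
  have hY : ∀ i : ℕ, ∃ (s : Finset (AddSubgroup Y.G)) (M : ℕ), (∀ D ∈ s, D ∈ Y.ab) ∧
      (∀ D ∈ s, ¬ img ρ B ≤ D) ∧ (3 ≤ i → i + 2 ≤ n → ∀ p : ℕ, p.Prime → M < p → ∀ β ∈ img ρ B,
        p • β = 0 → (∀ D ∈ s, β ∉ D) → ∀ k : ℕ, 0 < k → k < p → Y.h i (k • β) = 0) := by
    intro i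
    by_cases hi : 3 ≤ i ∧ i + 2 ≤ n
    · obtain ⟨-, α, hα, hα0⟩ := hgen i hi.1 hi.2
      obtain ⟨s, M, h1, h2, h3⟩ := avoid Y i (img ρ B) _ ((mem_img ρ B α).mp hα) hα0
      exact ⟨s, M, h1, h2, fun _ _ => h3⟩
    · exact ⟨∅, 0, by simp, by simp, fun h1 h2 => absurd ⟨h1, h2⟩ hi⟩
  choose s M hs1 hs2 hs3 using hX
  choose t M' ht1 ht2 ht3 using hY
  -- the subgroups to avoid
  let S : Finset (AddSubgroup X.G) := {⊥} ∪ (range (n + 1)).biUnion s ∪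
    (range (n + 1)).biUnion fun i => (t i).image (pull ρ)
  obtain ⟨p, hp, hMp, α, hα, hpα, hαS⟩ := exists_tors' B (X.isAb.fin B hB) S (by
    intro D hD
    simp only [S, Finset.mem_union, Finset.mem_singleton, Finset.mem_biUnion,
      Finset.mem_image] at hD
    rcases hD with (rfl | ⟨i, -, hD⟩) | ⟨i, -, D', hD', rfl⟩
    · exact X.isAb.sep B hB ⊥ X.isAb.bot fun h => hne (le_bot_iff.mp h)
    · exact X.isAb.sep B hB D (hs1 i D hD) (hs2 i D hD)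
    · obtain ⟨N, hN⟩ := Y.isAb.sep _ hB' D' (ht1 i D' hD') (ht2 i D' hD')
      refine ⟨N, fun p hp hNp => ?_⟩
      rw [ncard_tors ρ B hle, ncard_tors' ρ B hle]
      exact hN p hp hNp)
    (∑ i ∈ range (n + 1), M i + ∑ i ∈ range (n + 1), M' i)
  refine ⟨p, ⟨α, hle hα⟩, hp, hpα, ?_, ?_⟩
  · intro h
    refine hαS ⊥ (by simp [S]) ?_
    rw [show α = 0 from h]
    exact AddSubgroup.zero_mem _
  intro i hi1 hi2 k hk hkp
  have hi : i ∈ range (n + 1) := mem_range.mpr (by omega)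
  have hM1 : M i ≤ ∑ i ∈ range (n + 1), M i :=
    Finset.single_le_sum (f := M) (fun _ _ => Nat.zero_le _) hi
  have hM2 : M' i ≤ ∑ i ∈ range (n + 1), M' i :=
    Finset.single_le_sum (f := M') (fun _ _ => Nat.zero_le _) hi
  constructor
  · refine hs3 i hi1 hi2 p hp (by omega) α hα hpα (fun D hD => hαS D ?_) k hk hkp
    simp only [S, Finset.mem_union, Finset.mem_biUnion]
    exact Or.inl (Or.inr ⟨i, hi, hD⟩)
  · refine ht3 i hi1 hi2 p hp (by omega) _ ((mem_img ρ B ⟨α, hle hα⟩).mp hα) ?_ (fun D hD h => ?_)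
      k hk hkp
    · have h1 : p • (⟨α, hle hα⟩ : ρ.G₀) = 0 := Subtype.ext hpα
      have h2 : p • ρ.F ⟨α, hle hα⟩ = 0 := by rw [← map_nsmul, h1, map_zero]
      exact congrArg Subtype.val h2
    · refine hαS (pull ρ D) ?_ ((mem_pull ρ D ⟨α, hle hα⟩).mpr h)
      simp only [S, Finset.mem_union, Finset.mem_biUnion, Finset.mem_image]
      exact Or.inr ⟨i, hi, D, hD, rfl⟩

end Pool.Agent.X268.AL
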