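import Pool.Agent.X268.VL.Stm

set_option linter.unusedSectionVars false

open Finset

namespace Pool.Agent.X268.AL

open Pool.Agent.W539.DI Pool.Agent.X268.VL

/-- The Euler characteristic of `ω_X ⊗ α`, for `X` of dimension `n`. -/
def chi (X : Irr) (n : ℕ) (α : X.G) : ℤ := ∑ i ∈ range (n + 1), (-1) ^ i * (X.h i α : ℤ)

/-- The Euler characteristic of `ω_X ⊗ α` does not depend on `α`. -/
def ChiConst (X : Irr) (n : ℕ) : Prop := ∀ α : X.G, chi X n α = chi X n 0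

/-- `B ≠ 0` is an abelian subvariety of `G₀`, and for `3 ≤ i ≤ n - 2` neither `V^i(ω_X)` contains
`B` nor `V^i(ω_Y)` contains `F(B)`. -/
def Generic {X Y : Irr} (ρ : Rouquier X Y) (n : ℕ) (B : AddSubgroup X.G) : Prop :=
  B ∈ X.ab ∧ B ≤ ρ.G₀ ∧ B ≠ ⊥ ∧ ∀ i : ℕ, 3 ≤ i → i + 2 ≤ n →
    (∃ α ∈ B, X.h i α = 0) ∧ ∃ α : ρ.G₀, α.1 ∈ B ∧ Y.h i (ρ.F α).1 = 0

end Pool.Agent.X268.AL
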